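import Pool.Agent.Y386.SG.Hash
import Pool.Agent.H656R2.AK.Mat
import Pool.Agent.H656R2.AK.AKIn
import Pool.Agent.Y386.AK.BipIn

/-!
# The reduction from Arc-Kayles
-/

set_option autoImplicit false

namespace Pool.Agent.Y386.SG

open Pool.Agent.NPC Pool.Agent.H623R2.PS
open Pool.Agent.H656R2.AK (FirstWins adjMatrix ent poly_ent mem_prod)
open Pool.Agent.Y386.AK (ent_adjMatrix)

/-- the code of a vertex card -/
def vcN (h : ℕ → ℕ → Bool) (N u : ℕ) : List ℕ := (List.range N).map fun i => vval h i u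

/-- the code of an edge card -/
def ecN (h : ℕ → ℕ → Bool) (N u v j : ℕ) : List ℕ := (List.range N).map fun i => eval h i u v j

/-- the bound for the moduli -/
def MM (m : ℕ) (M : List (List Bool)) : ℕ := 2 * (M.length.bits.length * (2 * (m + 3)))

/-- the number of attributes -/
def NN (m : ℕ) (M : List (List Bool)) : ℕ := (MM m M + 1) * (MM m M + 1)

/-- the codes of the cards of a graph -/
def cardsN (m : ℕ) (M : List (List Bool)) : List (List ℕ) :=
  ((List.range M.length).map fun u => vcN (hsh (MM m M)) (NN m M) u) ++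
    (((List.range M.length ×ˢ List.range M.length) ×ˢ List.range (m + 1)).filter fun p =>
      decide (p.1.1 < p.1.2) && ent M p.1.1 p.1.2).map
        fun p => ecN (hsh (MM m M)) (NN m M) p.1.1 p.1.2 p.2

theorem code_vc {V N m : ℕ} (h : ℕ → ℕ → Bool) (u : Fin V) :
    cardCode (vc h u : Fin N → Fin (m + 3)) = vcN h N u := by
  unfold cardCode vcN
  apply List.ext_getElem
  · simp
  · intro i h1 h2
    simp only [List.getElem_ofFn, List.getElem_map, List.getElem_range, vc]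

theorem code_ec {V N m : ℕ} (h : ℕ → ℕ → Bool) (u v : Fin V) (j : Fin (m + 1)) :
    cardCode (ec h u v j : Fin N → Fin (m + 3)) = ecN h N u v j := by
  unfold cardCode ecN
  apply List.ext_getElem
  · simp
  · intro i h1 h2
    simp only [List.getElem_ofFn, List.getElem_map, List.getElem_range, ec]

theorem cardCode_inj {n k : ℕ} {a b : Fin n → Fin k} (h : cardCode a = cardCode b) : a = b := by
  unfold cardCode at h
  have h1 := List.ofFn_injective h
  funext i
  exact Fin.ext (congrFun h1 i)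

theorem length_adjMatrix {n : ℕ} (G : SimpleGraph (Fin n)) : (adjMatrix G).length = n := by
  simp [adjMatrix]

theorem sep_MM {n : ℕ} (m : ℕ) (M : List (List Bool)) (hM : M.length = n) :
    Sep (hsh (MM m M)) (NN m M) n (2 * (m + 3)) := by
  rcases Nat.eq_zero_or_pos n with h0 | h0
  · subst h0
    intro w
    exact w.elim0
  · have h1 : M.length.bits.length = n.size := by rw [hM, Nat.size_eq_bits_len]
    refine sep_hsh (L := M.length.bits.length) ?_ ?_ (by omega) (le_of_eq rfl)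
    · rw [h1]
      exact (Nat.lt_size_self n).le
    · rw [h1]
      exact Nat.size_pos.2 h0

theorem length_cardsN {n m : ℕ} (G : SimpleGraph (Fin n)) : n ≤ (cardsN m (adjMatrix G)).length := by
  unfold cardsN
  rw [List.length_append, List.length_map, List.length_range, length_adjMatrix]
  omega

theorem cardsN_code {n m : ℕ} (G : SimpleGraph (Fin n)) :
    ∃ C : List (Fin (NN m (adjMatrix G)) → Fin (m + 3)),
      C.map cardCode = cardsN m (adjMatrix G) ∧
        ∀ c, c ∈ C ↔ IsCard (hsh (MM m (adjMatrix G))) G c := by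
  have hlen := length_adjMatrix G
  have key : ∀ L : List (List ℕ), (∀ l ∈ L, ∃ c : Fin (NN m (adjMatrix G)) → Fin (m + 3),
      IsCard (hsh (MM m (adjMatrix G))) G c ∧ cardCode c = l) →
      ∃ C : List (Fin (NN m (adjMatrix G)) → Fin (m + 3)), C.map cardCode = L ∧
      ∀ c ∈ C, IsCard (hsh (MM m (adjMatrix G))) G c := by
    intro L
    induction L with
    | nil => intro _; exact ⟨[], rfl, by simp⟩
    | cons l L ih =>
      intro h
      obtain ⟨C, h1, h2⟩ := ih fun l hl => h l (List.mem_cons_of_mem _ hl)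
      obtain ⟨c, h3, h4⟩ := h l List.mem_cons_self
      refine ⟨c :: C, by rw [List.map_cons, h1, h4], ?_⟩
      intro d hd
      rcases List.mem_cons.1 hd with rfl | hd
      · exact h3
      · exact h2 d hd
  obtain ⟨C, h1, h2⟩ := key (cardsN m (adjMatrix G)) (by
    intro l hl
    unfold cardsN at hl
    rw [List.mem_append, List.mem_map, List.mem_map] at hl
    rcases hl with ⟨i, hi, rfl⟩ | ⟨⟨⟨i, j⟩, t⟩, hij, rfl⟩
    · rw [List.mem_range, hlen] at hi
      exact ⟨vc _ ⟨i, hi⟩, Or.inl ⟨_, rfl⟩, code_vc _ (⟨i, hi⟩ : Fin n)⟩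
    · rw [List.mem_filter, mem_prod, mem_prod, List.mem_range, List.mem_range, List.mem_range,
        Bool.and_eq_true, hlen] at hij
      obtain ⟨⟨⟨hi, hj⟩, ht⟩, _, he⟩ := hij
      exact ⟨ec _ ⟨i, hi⟩ ⟨j, hj⟩ ⟨t, ht⟩, Or.inr ⟨⟨i, hi⟩, ⟨j, hj⟩, ⟨t, ht⟩,
        (ent_adjMatrix G ⟨i, hi⟩ ⟨j, hj⟩).1 he, rfl⟩,
        code_ec _ (⟨i, hi⟩ : Fin n) ⟨j, hj⟩ ⟨t, ht⟩⟩)
  refine ⟨C, h1, fun c => ⟨h2 c, ?_⟩⟩
  intro hc
  have h3 : cardCode c ∈ C.map cardCode := by
    rw [h1]
    unfold cardsN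
    rw [List.mem_append, List.mem_map, List.mem_map]
    rcases hc with ⟨u, rfl⟩ | ⟨u, v, t, huv, rfl⟩
    · exact Or.inl ⟨u.val, List.mem_range.2 (by rw [hlen]; exact u.isLt), (code_vc _ u).symm⟩
    · right
      rcases lt_trichotomy u.val v.val with h | h | h
      · refine ⟨((u.val, v.val), t.val), ?_, (code_ec _ u v t).symm⟩
        rw [List.mem_filter, mem_prod, mem_prod, Bool.and_eq_true]
        exact ⟨⟨⟨List.mem_range.2 (by rw [hlen]; exact u.isLt),
          List.mem_range.2 (by rw [hlen]; exact v.isLt)⟩, List.mem_range.2 t.isLt⟩,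
          by simpa using h, (ent_adjMatrix G u v).2 huv⟩
      · exact absurd (Fin.ext h) huv.ne
      · refine ⟨((v.val, u.val), t.val), ?_, ?_⟩
        · rw [List.mem_filter, mem_prod, mem_prod, Bool.and_eq_true]
          exact ⟨⟨⟨List.mem_range.2 (by rw [hlen]; exact v.isLt),
            List.mem_range.2 (by rw [hlen]; exact u.isLt)⟩, List.mem_range.2 t.isLt⟩,
            by simpa using h, (ent_adjMatrix G v u).2 huv.symm⟩
        · rw [ec_comm, code_ec]
  rw [List.mem_map] at h3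
  obtain ⟨d, hd, hdc⟩ := h3
  rwa [cardCode_inj hdc] at hd

theorem cardsN_nodup {n m : ℕ} (G : SimpleGraph (Fin n)) : (cardsN m (adjMatrix G)).Nodup := by
  have hlen := length_adjMatrix G
  have hs : Sep (hsh (MM m (adjMatrix G))) (NN m (adjMatrix G)) n 4 :=
    (sep_MM m (adjMatrix G) hlen).mono (by omega)
  unfold cardsN
  rw [List.nodup_append]
  refine ⟨?_, ?_, ?_⟩
  · refine List.Nodup.map_on ?_ List.nodup_range
    intro i hi j hj h
    rw [List.mem_range, hlen] at hi hj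
    have h1 : (vc (hsh (MM m (adjMatrix G))) (⟨i, hi⟩ : Fin n) :
        Fin (NN m (adjMatrix G)) → Fin (m + 3)) = vc _ (⟨j, hj⟩ : Fin n) :=
      cardCode_inj (by rw [code_vc, code_vc]; exact h)
    exact congrArg Fin.val (vc_inj hs h1)
  · refine List.Nodup.map_on ?_ (List.Nodup.filter _ (List.Nodup.product (List.Nodup.product
      List.nodup_range List.nodup_range) List.nodup_range))
    rintro ⟨⟨i, j⟩, t⟩ hij ⟨⟨i', j'⟩, t'⟩ hij' h
    rw [List.mem_filter, mem_prod, mem_prod, List.mem_range, List.mem_range, List.mem_range,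
      Bool.and_eq_true, decide_eq_true_eq, hlen] at hij hij'
    obtain ⟨⟨⟨hi, hj⟩, ht⟩, hlt, _⟩ := hij
    obtain ⟨⟨⟨hi', hj'⟩, ht'⟩, hlt', _⟩ := hij'
    simp only at hi hj ht hlt hi' hj' ht' hlt' h
    have h1 : (ec (hsh (MM m (adjMatrix G))) (⟨i, hi⟩ : Fin n) ⟨j, hj⟩ ⟨t, ht⟩ :
        Fin (NN m (adjMatrix G)) → Fin (m + 3)) = ec _ (⟨i', hi'⟩ : Fin n) ⟨j', hj'⟩ ⟨t', ht'⟩ :=
      cardCode_inj (by rw [code_ec, code_ec]; exact h)
    obtain ⟨h2, h3⟩ := ec_inj hs (Fin.ne_of_val_ne (Nat.ne_of_lt hlt))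
      (Fin.ne_of_val_ne (Nat.ne_of_lt hlt')) h1
    simp only [Fin.mk.injEq] at h2 h3
    simp only [Prod.mk.injEq]
    omega
  · intro l hl l' hl' e
    subst e
    rw [List.mem_map] at hl hl'
    obtain ⟨i, hi, rfl⟩ := hl
    obtain ⟨⟨⟨j, k⟩, t⟩, hjk, h⟩ := hl'
    rw [List.mem_range, hlen] at hi
    rw [List.mem_filter, mem_prod, mem_prod, List.mem_range, List.mem_range, List.mem_range,
      Bool.and_eq_true, decide_eq_true_eq, hlen] at hjk
    obtain ⟨⟨⟨hj, hk⟩, ht⟩, hlt, _⟩ := hjk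
    simp only at hj hk ht hlt h
    have h1 : (vc (hsh (MM m (adjMatrix G))) (⟨i, hi⟩ : Fin n) :
        Fin (NN m (adjMatrix G)) → Fin (m + 3)) = ec _ (⟨j, hj⟩ : Fin n) ⟨k, hk⟩ ⟨t, ht⟩ :=
      cardCode_inj (by rw [code_vc, code_ec]; exact h.symm)
    exact vc_ne_ec hs (Fin.ne_of_val_ne (Nat.ne_of_lt hlt)) _ h1

/-- the collection of cards of a graph -/
theorem game_of {n : ℕ} (m : ℕ) (G : SimpleGraph (Fin n)) :
    ∃ C : List (Fin (NN m (adjMatrix G)) → Fin (m + 3)), C.Nodup ∧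
      C.map cardCode = cardsN m (adjMatrix G) ∧
      (∀ c, c ∈ C ↔ IsCard (hsh (MM m (adjMatrix G))) G c) ∧
      (FirstWins G Set.univ ↔ SetWins {c | c ∈ C}) := by
  obtain ⟨C, h1, h2⟩ := cardsN_code (m := m) G
  have hC : C.Nodup := List.Nodup.of_map cardCode (by rw [h1]; exact cardsN_nodup G)
  refine ⟨C, hC, h1, h2, setWins_graph (sep_MM m _ (length_adjMatrix G)) G ?_⟩
  refine ⟨fun u => ?_, fun u v huv _ _ j => ?_, fun c hc => (h2 c).1 hc⟩
  · simp only [Set.mem_ofPred_eq, Set.mem_univ, iff_true]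
    exact (h2 _).2 (Or.inl ⟨u, rfl⟩)
  · exact (h2 _).2 (Or.inr ⟨u, v, j, huv, rfl⟩)

theorem setGame_of {n : ℕ} (m : ℕ) (G : SimpleGraph (Fin n)) :
    SetGame (m + 3) (NN m (adjMatrix G), cardsN m (adjMatrix G)) ↔ FirstWins G Set.univ := by
  obtain ⟨C, hC, h1, -, h3⟩ := game_of m G
  rw [h3]
  constructor
  · rintro ⟨n', D, _, hD, hp, hW⟩
    rw [Prod.mk.injEq] at hp
    obtain ⟨rfl, hp⟩ := hp
    have : D = C := List.map_injective_iff.2 (fun a b h => cardCode_inj h) (hp.symm.trans h1.symm)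
    rwa [← this]
  · intro hW
    refine ⟨NN m (adjMatrix G), C, ?_, hC, by rw [h1], hW⟩
    unfold NN
    exact Nat.succ_le_of_lt (Nat.mul_pos (Nat.succ_pos _) (Nat.succ_pos _))

end Pool.Agent.Y386.SG
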