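import Pool.Agent.Y386.SG.Codes

/-!
# The reduction is computable in polynomial time
-/

set_option autoImplicit false

namespace Pool.Agent.Y386.SG

open Pool.Agent.NPC Pool.Agent.H623R2.PS
open Pool.Agent.H656R2.AK (FirstWins adjMatrix ent poly_ent mem_prod)
open Pool.Agent.Y386.AK (ent_adjMatrix)

theorem uPoly_MM (m : ℕ) : UPoly (MM m) := by
  have h : UPoly (fun M : List (List Bool) => M.length.bits.length) :=
    UPoly.length (NPC.Poly.natBits (NPC.Poly.length NPC.Poly.id))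
  exact (UPoly.const 2).mul (h.mul (UPoly.const _))

theorem uPoly_NN (m : ℕ) : UPoly (NN m) :=
  ((uPoly_MM m).add (UPoly.const 1)).mul ((uPoly_MM m).add (UPoly.const 1))

section

variable {α : Type} [TEnc α] {a b c d e : α → ℕ}

theorem poly_hsh : NPC.Poly (fun q : ℕ × ℕ × ℕ => hsh q.1 q.2.1 q.2.2) := by
  unfold hsh
  fun_prop

theorem poly_hsh' (ha : NPC.Poly a) (hb : NPC.Poly b)
    (hc : NPC.Poly c) : NPC.Poly (fun x => hsh (a x) (b x) (c x)) :=
  poly_hsh.comp (f := fun x => (a x, b x, c x)) (ha.pair (hb.pair hc))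

theorem poly_vval (ha : NPC.Poly a) (hb : NPC.Poly b)
    (hc : NPC.Poly c) : NPC.Poly (fun x => vval (hsh (a x)) (b x) (c x)) := by
  have := poly_hsh' ha hb hc
  unfold vval
  fun_prop

theorem poly_eval (ha : NPC.Poly a) (hb : NPC.Poly b)
    (hc : NPC.Poly c) (hd : NPC.Poly d) (he : NPC.Poly e) :
    NPC.Poly (fun x => eval (hsh (a x)) (b x) (c x) (d x) (e x)) := by
  have h1 := poly_hsh' ha hb hc
  have h2 := poly_hsh' ha hb hd
  unfold eval
  exact NPC.Poly.ite (p := fun x => hsh (a x) (b x) (c x) = true ∧ hsh (a x) (b x) (d x) = true)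
    (NPC.Poly.decide_and (NPC.Poly.decide_bool h1) (NPC.Poly.decide_bool h2)) (NPC.Poly.const 1)
    (NPC.Poly.ite (p := fun x => hsh (a x) (b x) (c x) = true ∨ hsh (a x) (b x) (d x) = true)
    (NPC.Poly.decide_or (NPC.Poly.decide_bool h1) (NPC.Poly.decide_bool h2))
      (he.add (NPC.Poly.const 2)) (NPC.Poly.const 0))

end

attribute [local irreducible] MM NN hsh vval eval in
theorem poly_cardsN (m : ℕ) : NPC.Poly (cardsN m) := by
  have hM : NPC.Poly (MM m) := (uPoly_MM m).toPoly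
  have hN : NPC.Poly (fun M : List (List Bool) => List.range (NN m M)) := (uPoly_NN m).range
  have h : UPoly (fun M : List (List Bool) => M.length) := UPoly.length (by fun_prop)
  have h1 := h.range
  have hv : NPC.Poly (fun q : List (List Bool) × ℕ => vcN (hsh (MM m q.1)) (NN m q.1) q.2) := by
    refine NPC.Poly.map (l := fun q : List (List Bool) × ℕ => List.range (NN m q.1))
      (F := fun q i => vval (hsh (MM m q.1)) i q.2) (hN.comp (NPC.Poly.fst NPC.Poly.id)) ?_
    exact poly_vval (hM.comp (f := fun q : (List (List Bool) × ℕ) × ℕ => q.1.1)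
      (NPC.Poly.fst (NPC.Poly.fst NPC.Poly.id))) (NPC.Poly.snd NPC.Poly.id)
      (NPC.Poly.snd (NPC.Poly.fst NPC.Poly.id))
  have he : NPC.Poly (fun q : List (List Bool) × ((ℕ × ℕ) × ℕ) =>
      ecN (hsh (MM m q.1)) (NN m q.1) q.2.1.1 q.2.1.2 q.2.2) := by
    refine NPC.Poly.map (l := fun q : List (List Bool) × ((ℕ × ℕ) × ℕ) => List.range (NN m q.1))
      (F := fun q i => eval (hsh (MM m q.1)) i q.2.1.1 q.2.1.2 q.2.2)
      (hN.comp (NPC.Poly.fst NPC.Poly.id)) ?_
    have a0 : NPC.Poly (fun q : (List (List Bool) × ((ℕ × ℕ) × ℕ)) × ℕ => q.1.2) :=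
      NPC.Poly.snd (NPC.Poly.fst NPC.Poly.id)
    exact poly_eval (hM.comp (f := fun q : (List (List Bool) × ((ℕ × ℕ) × ℕ)) × ℕ => q.1.1)
      (NPC.Poly.fst (NPC.Poly.fst NPC.Poly.id))) (NPC.Poly.snd NPC.Poly.id)
      (NPC.Poly.fst (NPC.Poly.fst a0)) (NPC.Poly.snd (NPC.Poly.fst a0)) (NPC.Poly.snd a0)
  have h2 : NPC.Poly (fun M : List (List Bool) => (List.range M.length ×ˢ List.range M.length) ×ˢ
      List.range (m + 1)) :=
    R671.poly_product (R671.poly_product h1 h1) (NPC.Poly.const _)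
  have h3 : NPC.Poly (fun M : List (List Bool) => ((List.range M.length ×ˢ
      List.range M.length) ×ˢ List.range (m + 1)).filter fun p =>
        decide (p.1.1 < p.1.2) && ent M p.1.1 p.1.2) := by
    refine NPC.Poly.filter (p := fun M p => decide (p.1.1 < p.1.2) && ent M p.1.1 p.1.2) h2 ?_
    have a0 : NPC.Poly (fun q : List (List Bool) × ((ℕ × ℕ) × ℕ) => q.2.1.1) :=
      NPC.Poly.fst (NPC.Poly.fst (NPC.Poly.snd NPC.Poly.id))
    have a1 : NPC.Poly (fun q : List (List Bool) × ((ℕ × ℕ) × ℕ) => q.2.1.2) :=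
      NPC.Poly.snd (NPC.Poly.fst (NPC.Poly.snd NPC.Poly.id))
    exact (NPC.Poly.decide_lt a0 a1).and (by fun_prop)
  exact NPC.Poly.append (NPC.Poly.map (F := fun M u => vcN (hsh (MM m M)) (NN m M) u) h1 hv)
    (NPC.Poly.map (F := fun M p => ecN (hsh (MM m M)) (NN m M) p.1.1 p.1.2 p.2) h3 he)

end Pool.Agent.Y386.SG
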