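import Pool.Agent.Y386.SG.Defs
import Pool.Agent.H656R2.AK.Bisim

/-!
# Graphs as collections of cards
-/

set_option autoImplicit false

namespace Pool.Agent.Y386.SG

open Pool.Agent.H656R2.AK (W W_bisim_iff FirstWins firstWins_iff akMv)

/-- the moves of the game -/
def setMv {n k : ℕ} (C C' : Set (Fin n → Fin k)) : Prop :=
  ∃ X : Finset (Fin n → Fin k), ↑X ⊆ C ∧ IsSet X ∧ C' = C \ ↑X

theorem setWins_iff {n k : ℕ} (C : Set (Fin n → Fin k)) : SetWins C ↔ W setMv C := by
  constructor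
  · intro h
    induction h with
    | move X h1 h2 hr ih =>
      refine W.mk _ _ ⟨X, h1, h2, rfl⟩ ?_
      rintro _ ⟨Y, h3, h4, rfl⟩
      exact ih Y h3 h4
  · intro h
    induction h with
    | mk a b h hb ih =>
      obtain ⟨X, h1, h2, rfl⟩ := h
      exact SetWins.move X h1 h2 fun Y h3 h4 => ih _ ⟨Y, h3, h4, rfl⟩

variable {V N m : ℕ}

/-- the value of the card of the vertex `u` -/
def vval (h : ℕ → ℕ → Bool) (i u : ℕ) : ℕ := if h i u = true then 1 else 0

/-- the value of the `j`th card of the edge `uv` -/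
def eval (h : ℕ → ℕ → Bool) (i u v j : ℕ) : ℕ :=
  if h i u = true ∧ h i v = true then 1 else if h i u = true ∨ h i v = true then j + 2 else 0

/-- the card of a vertex -/
def vc (h : ℕ → ℕ → Bool) (u : Fin V) : Fin N → Fin (m + 3) := fun i =>
  ⟨vval h i u, by unfold vval; split_ifs <;> omega⟩

/-- the `j`th card of the edge `uv` -/
def ec (h : ℕ → ℕ → Bool) (u v : Fin V) (j : Fin (m + 1)) : Fin N → Fin (m + 3) := fun i =>
  ⟨eval h i u v j, by unfold eval; split_ifs <;> omega⟩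

/-- Every vertex can be separated from every set of at most `s` other vertices. -/
def Sep (h : ℕ → ℕ → Bool) (N V s : ℕ) : Prop :=
  ∀ (w : Fin V) (W : Finset (Fin V)), w ∉ W → W.card ≤ s →
    ∃ i : Fin N, h i w = true ∧ ∀ v ∈ W, h i v = false

/-- a card of the graph -/
def IsCard (h : ℕ → ℕ → Bool) (G : SimpleGraph (Fin V)) (c : Fin N → Fin (m + 3)) : Prop :=
  (∃ u : Fin V, c = vc h u) ∨ ∃ (u v : Fin V) (j : Fin (m + 1)), G.Adj u v ∧ c = ec h u v j

/-- the Set of an edge -/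
def SX (h : ℕ → ℕ → Bool) (u v : Fin V) : Finset (Fin N → Fin (m + 3)) :=
  insert (vc h u) (insert (vc h v) (Finset.univ.image (ec h u v)))

theorem ec_comm (h : ℕ → ℕ → Bool) (u v : Fin V) (j : Fin (m + 1)) :
    (ec h u v j : Fin N → Fin (m + 3)) = ec h v u j := by
  funext i
  apply Fin.ext
  simp only [ec, eval]
  by_cases h1 : h i u = true <;> by_cases h2 : h i v = true <;> simp [h1, h2]

theorem SX_comm (h : ℕ → ℕ → Bool) (u v : Fin V) :
    (SX h u v : Finset (Fin N → Fin (m + 3))) = SX h v u := by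
  unfold SX
  rw [Finset.insert_comm]
  congr 3
  funext j
  exact ec_comm h u v j

section values

variable {h : ℕ → ℕ → Bool} {i : Fin N} {w : Fin V} {W : Finset (Fin V)}

/-- the coordinate `i` looks at `w` only -/
def Pure (h : ℕ → ℕ → Bool) (W : Finset (Fin V)) (w : Fin V) (i : Fin N) : Prop :=
  h i w = true ∧ ∀ v ∈ W, v ≠ w → h i v = false

theorem vc_val (hi : Pure h W w i) {u : Fin V} (hu : u ∈ W) :
    (vc h u i : Fin (m + 3)).val = if u = w then 1 else 0 := by
  simp only [vc, vval]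
  by_cases e : u = w
  · subst e
    simp [hi.1]
  · simp [e, hi.2 u hu e]

theorem ec_val (hi : Pure h W w i) {u v : Fin V} (hu : u ∈ W) (hv : v ∈ W) (huv : u ≠ v)
    (j : Fin (m + 1)) : (ec h u v j i : Fin (m + 3)).val = if u = w ∨ v = w then j.val + 2 else 0 := by
  simp only [ec, eval]
  by_cases e : u = w
  · subst e
    simp [hi.1, hi.2 v hv (Ne.symm huv)]
  · by_cases e' : v = w
    · subst e'
      simp [hi.1, hi.2 u hu e]
    · simp [e, e', hi.2 u hu e, hi.2 v hv e']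

end values

theorem Sep.pure {h : ℕ → ℕ → Bool} {s : ℕ} (hs : Sep h N V s) {W : Finset (Fin V)}
    (hW : W.card ≤ s) (w : Fin V) : ∃ i : Fin N, Pure h W w i := by
  obtain ⟨i, h1, h2⟩ := hs w (W.erase w) (Finset.notMem_erase _ _)
    ((Finset.card_erase_le).trans hW)
  exact ⟨i, h1, fun v hv hvw => h2 v (Finset.mem_erase.2 ⟨hvw, hv⟩)⟩

theorem Sep.mono {h : ℕ → ℕ → Bool} {s t : ℕ} (hs : Sep h N V s) (hts : t ≤ s) : Sep h N V t :=
  fun w W h1 h2 => hs w W h1 (h2.trans hts)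

section inj

variable {h : ℕ → ℕ → Bool}

theorem vc_inj (hs : Sep h N V 4) {u v : Fin V} (e : (vc h u : Fin N → Fin (m + 3)) = vc h v) :
    u = v := by
  obtain ⟨i, hi⟩ := hs.pure (W := {u, v}) (by
    exact (Finset.card_le_two).trans (by norm_num)) u
  have h1 := congrArg Fin.val (congrFun e i)
  rw [vc_val hi (by simp), vc_val hi (by simp), if_pos rfl] at h1
  by_contra hc
  rw [if_neg (Ne.symm hc)] at h1
  omega

theorem vc_ne_ec (hs : Sep h N V 4) {u v w : Fin V} (hvw : v ≠ w) (j : Fin (m + 1)) :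
    (vc h u : Fin N → Fin (m + 3)) ≠ ec h v w j := by
  intro e
  have key : ∀ z : Fin V, z = v ∨ z = w → z ≠ u → False := by
    intro z hz hzu
    obtain ⟨i, hi⟩ := hs.pure (W := {u, v, w}) (by
      exact (Finset.card_le_three).trans (by norm_num)) z
    have h1 := congrArg Fin.val (congrFun e i)
    rw [vc_val hi (by simp), ec_val hi (by simp) (by simp) hvw, if_neg (Ne.symm hzu),
      if_pos (by tauto)] at h1
    omega
  by_cases h1 : v = u
  · exact key w (Or.inr rfl) fun h2 => hvw (h1.trans h2.symm)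
  · exact key v (Or.inl rfl) h1

theorem ec_inj (hs : Sep h N V 4) {u v x y : Fin V} (huv : u ≠ v) (hxy : x ≠ y)
    {j j' : Fin (m + 1)} (e : (ec h u v j : Fin N → Fin (m + 3)) = ec h x y j') :
    ((x = u ∧ y = v) ∨ (x = v ∧ y = u)) ∧ j = j' := by
  have hW : ({u, v, x, y} : Finset (Fin V)).card ≤ 4 := Finset.card_le_four
  have key : ∀ z : Fin V, z = u ∨ z = v → (z = x ∨ z = y) ∧ j = j' := by
    intro z hz
    obtain ⟨i, hi⟩ := hs.pure (W := {u, v, x, y}) hW z
    have h1 := congrArg Fin.val (congrFun e i)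
    rw [ec_val hi (by simp) (by simp) huv, ec_val hi (by simp) (by simp) hxy,
      if_pos (by tauto)] at h1
    split_ifs at h1 with h2
    · refine ⟨by tauto, Fin.ext (by omega)⟩
  obtain ⟨h1, h3⟩ := key u (Or.inl rfl)
  obtain ⟨h2, -⟩ := key v (Or.inr rfl)
  refine ⟨?_, h3⟩
  rcases h1 with h1 | h1 <;> rcases h2 with h2 | h2
  · exact absurd (h1.trans h2.symm) huv
  · exact Or.inl ⟨h1.symm, h2.symm⟩
  · exact Or.inr ⟨h2.symm, h1.symm⟩
  · exact absurd (h1.trans h2.symm) huv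

end inj

theorem mem_SX {h : ℕ → ℕ → Bool} {u v : Fin V} {c : Fin N → Fin (m + 3)} :
    c ∈ SX h u v ↔ c = vc h u ∨ c = vc h v ∨ ∃ j, c = ec h u v j := by
  unfold SX
  simp only [Finset.mem_insert, Finset.mem_image, Finset.mem_univ, true_and]
  simp only [eq_comm]

/-- a Set is determined by its card at a coordinate where the values are distinct -/
theorem surj_of_inj {k : ℕ} {X : Finset (Fin N → Fin k)} (hX : X.card = k) {i : Fin N}
    (hi : ∀ a ∈ X, ∀ b ∈ X, a i = b i → a = b) (t : ℕ) (ht : t < k) : ∃ c ∈ X, (c i).val = t := by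
  have h1 : (X.image fun c => c i).card = k := by
    rw [Finset.card_image_of_injOn fun a ha b hb e => hi a ha b hb e, hX]
  have h2 : (X.image fun c => c i) = Finset.univ :=
    Finset.eq_univ_of_card _ (by rw [h1, Fintype.card_fin])
  have h3 : (⟨t, ht⟩ : Fin k) ∈ X.image fun c => c i := by
    rw [h2]
    exact Finset.mem_univ _
  obtain ⟨c, hc, h4⟩ := Finset.mem_image.1 h3
  exact ⟨c, hc, by rw [h4]⟩

theorem card_SX {h : ℕ → ℕ → Bool} (hs : Sep h N V 4) {u v : Fin V} (huv : u ≠ v) :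
    (SX h u v : Finset (Fin N → Fin (m + 3))).card = m + 3 := by
  obtain ⟨i, hi⟩ := hs.pure (W := {u, v}) (by
    exact (Finset.card_le_two).trans (by norm_num)) u
  apply le_antisymm
  · unfold SX
    refine (Finset.card_insert_le _ _).trans ?_
    have h1 := Finset.card_insert_le (vc h v)
      (Finset.univ.image (ec h u v) : Finset (Fin N → Fin (m + 3)))
    have h2 : (Finset.univ.image (ec h u v) : Finset (Fin N → Fin (m + 3))).card ≤ m + 1 := by
      refine Finset.card_image_le.trans ?_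
      simp
    omega
  · have h1 : ((SX h u v : Finset (Fin N → Fin (m + 3))).image fun c => c i) = Finset.univ := by
      apply Finset.eq_univ_of_forall
      intro t
      rw [Finset.mem_image]
      have ht := t.isLt
      rcases Nat.lt_or_ge t.val 1 with h2 | h2
      · refine ⟨vc h v, mem_SX.2 (Or.inr (Or.inl rfl)), Fin.ext ?_⟩
        rw [vc_val hi (by simp), if_neg (Ne.symm huv)]
        omega
      · rcases Nat.lt_or_ge t.val 2 with h3 | h3
        · refine ⟨vc h u, mem_SX.2 (Or.inl rfl), Fin.ext ?_⟩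
          rw [vc_val hi (by simp), if_pos rfl]
          omega
        · refine ⟨ec h u v ⟨t.val - 2, by omega⟩, mem_SX.2 (Or.inr (Or.inr ⟨_, rfl⟩)), Fin.ext ?_⟩
          rw [ec_val hi (by simp) (by simp) huv, if_pos (Or.inl rfl)]
          simp only
          omega
    have h2 := Finset.card_image_le (s := (SX h u v : Finset (Fin N → Fin (m + 3))))
      (f := fun c => c i)
    rw [h1, Finset.card_univ, Fintype.card_fin] at h2
    exact h2

theorem isSet_SX {h : ℕ → ℕ → Bool} (hs : Sep h N V 4) {u v : Fin V} (huv : u ≠ v) :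
    IsSet (SX h u v : Finset (Fin N → Fin (m + 3))) := by
  refine ⟨card_SX hs huv, fun i => ?_⟩
  by_cases h1 : h i u = true <;> by_cases h2 : h i v = true
  · left
    have key : ∀ c ∈ (SX h u v : Finset (Fin N → Fin (m + 3))), (c i).val = 1 := by
      intro c hc
      rcases mem_SX.1 hc with rfl | rfl | ⟨j, rfl⟩ <;> simp [vc, vval, ec, eval, h1, h2]
    intro a ha b hb
    exact Fin.ext ((key a ha).trans (key b hb).symm)
  · right
    intro a ha b hb e
    have e' := congrArg Fin.val e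
    rcases mem_SX.1 ha with rfl | rfl | ⟨j, rfl⟩ <;> rcases mem_SX.1 hb with rfl | rfl | ⟨j', rfl⟩ <;>
      simp [vc, vval, ec, eval, h1, h2] at e' ⊢
    rw [Fin.ext e']
  · right
    intro a ha b hb e
    have e' := congrArg Fin.val e
    rcases mem_SX.1 ha with rfl | rfl | ⟨j, rfl⟩ <;> rcases mem_SX.1 hb with rfl | rfl | ⟨j', rfl⟩ <;>
      simp [vc, vval, ec, eval, h1, h2] at e' ⊢
    rw [Fin.ext e']
  · left
    have key : ∀ c ∈ (SX h u v : Finset (Fin N → Fin (m + 3))), (c i).val = 0 := by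
      intro c hc
      rcases mem_SX.1 hc with rfl | rfl | ⟨j, rfl⟩ <;> simp [vc, vval, ec, eval, h1, h2]
    intro a ha b hb
    exact Fin.ext ((key a ha).trans (key b hb).symm)

theorem exists_vs {h : ℕ → ℕ → Bool} {G : SimpleGraph (Fin V)} {c : Fin N → Fin (m + 3)}
    (hc : IsCard h G c) : ∃ S : Finset (Fin V), S.card ≤ 2 ∧ ((∃ u ∈ S, c = vc h u) ∨
      ∃ u ∈ S, ∃ v ∈ S, ∃ j, G.Adj u v ∧ c = ec h u v j) := by
  rcases hc with ⟨u, rfl⟩ | ⟨u, v, j, huv, rfl⟩
  · exact ⟨{u}, by simp, Or.inl ⟨u, by simp, rfl⟩⟩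
  · exact ⟨{u, v}, Finset.card_le_two, Or.inr ⟨u, by simp, v, by simp, j, huv, rfl⟩⟩

/-- Every Set of cards of the graph is the Set of an edge. -/
theorem set_struct {h : ℕ → ℕ → Bool} {G : SimpleGraph (Fin V)}
    {X : Finset (Fin N → Fin (m + 3))} (hsep : Sep h N V (2 * (m + 3)))
    (hX : ∀ c ∈ X, IsCard h G c) (hS : IsSet X) : ∃ u v, G.Adj u v ∧ X = SX h u v := by
  classical
  have hs4 : Sep h N V 4 := hsep.mono (by omega)
  have hx := fun c (hc : c ∈ X) => exists_vs (hX c hc)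
  choose! S hS1 hS2 using hx
  obtain ⟨hk, hval⟩ := hS
  have hWc : (X.biUnion S).card ≤ 2 * (m + 3) := by
    refine Finset.card_biUnion_le.trans ?_
    refine (Finset.sum_le_card_nsmul X _ 2 hS1).trans ?_
    rw [hk, smul_eq_mul]
    omega
  obtain ⟨W, hWdef⟩ : ∃ W, W = X.biUnion S := ⟨_, rfl⟩
  rw [← hWdef] at hWc
  have rep : ∀ c ∈ X, (∃ u ∈ W, c = vc h u) ∨
      ∃ u ∈ W, ∃ v ∈ W, ∃ j, G.Adj u v ∧ c = ec h u v j := by
    intro c hc
    have hsub : ∀ u ∈ S c, u ∈ W := fun u hu => by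
      rw [hWdef]
      exact Finset.mem_biUnion.2 ⟨c, hc, hu⟩
    rcases hS2 c hc with ⟨u, hu, e⟩ | ⟨u, hu, v, hv, j, h1, e⟩
    · exact Or.inl ⟨u, hsub u hu, e⟩
    · exact Or.inr ⟨u, hsub u hu, v, hsub v hv, j, h1, e⟩
  have pure : ∀ w, ∃ i : Fin N, Pure h W w i := fun w => hsep.pure hWc w
  -- only the card of `w` has the value one
  have one : ∀ w, ∀ i : Fin N, Pure h W w i → ∀ c ∈ X, (c i).val = 1 → c = vc h w := by
    intro w i hi c hc h1
    rcases rep c hc with ⟨u, hu, rfl⟩ | ⟨u, hu, v, hv, j, huv, rfl⟩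
    · rw [vc_val hi hu] at h1
      split_ifs at h1 with h2
      rw [h2]
    · rw [ec_val hi hu hv huv.ne] at h1
      split_ifs at h1
      omega
  by_cases hA : ∃ w ∈ W, vc h w ∈ X
  · obtain ⟨w, hw, hwX⟩ := hA
    obtain ⟨i, hi⟩ := pure w
    have inj : ∀ a ∈ X, ∀ b ∈ X, a i = b i → a = b := by
      refine (hval i).resolve_left fun hall => ?_
      obtain ⟨c, hc, hcw⟩ := Finset.exists_mem_ne (by omega : 1 < X.card) (vc h w)
      refine hcw (one w i hi c hc ?_)
      rw [hall c hc _ hwX, vc_val hi hw, if_pos rfl]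
    have hE : ∀ j : Fin (m + 1), ∃ u ∈ W, G.Adj w u ∧ ec h w u j ∈ X := by
      intro j
      obtain ⟨c, hc, h1⟩ := surj_of_inj hk inj (j.val + 2) (by omega)
      rcases rep c hc with ⟨u, hu, rfl⟩ | ⟨u, hu, v, hv, j', huv, rfl⟩
      · rw [vc_val hi hu] at h1
        split_ifs at h1
        omega
      · rw [ec_val hi hu hv huv.ne] at h1
        split_ifs at h1 with h2
        have hj : j' = j := Fin.ext (by omega)
        subst hj
        rcases h2 with rfl | rfl
        · exact ⟨v, hv, huv, hc⟩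
        · exact ⟨u, hu, huv.symm, by rwa [ec_comm]⟩
    obtain ⟨u, hu, hwu, hX0⟩ := hE 0
    obtain ⟨i', hi'⟩ := pure u
    have inj' : ∀ a ∈ X, ∀ b ∈ X, a i' = b i' → a = b := by
      refine (hval i').resolve_left fun hall => ?_
      have h1 := congrArg Fin.val (hall _ hX0 _ hwX)
      rw [ec_val hi' hw hu hwu.ne, vc_val hi' hw, if_pos (Or.inr rfl), if_neg hwu.ne] at h1
      omega
    have huX : vc h u ∈ X := by
      obtain ⟨c, hc, h1⟩ := surj_of_inj hk inj' 1 (by omega)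
      rwa [one u i' hi' c hc h1] at hc
    have hall : ∀ j : Fin (m + 1), ec h w u j ∈ X := by
      intro j
      obtain ⟨v, hv, hwv, hXv⟩ := hE j
      by_cases e : v = u
      · rwa [e] at hXv
      · exfalso
        have h1 : (ec h w v j : Fin N → Fin (m + 3)) = vc h w := by
          apply inj' _ hXv _ hwX
          apply Fin.ext
          rw [ec_val hi' hw hv hwv.ne, vc_val hi' hw, if_neg (by
            rintro (h2 | h2)
            · exact hwu.ne h2
            · exact e h2), if_neg hwu.ne]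
        exact vc_ne_ec hs4 hwv.ne j h1.symm
    refine ⟨w, u, hwu, (Finset.eq_of_subset_of_card_le ?_ ?_).symm⟩
    · intro c hc
      rcases mem_SX.1 hc with rfl | rfl | ⟨j, rfl⟩
      · exact hwX
      · exact huX
      · exact hall j
    · rw [hk, card_SX hs4 hwu.ne]
  · exfalso
    have noV : ∀ c ∈ X, ∃ u ∈ W, ∃ v ∈ W, ∃ j, G.Adj u v ∧ c = ec h u v j := by
      intro c hc
      rcases rep c hc with ⟨u, hu, rfl⟩ | h1
      · exact absurd ⟨u, hu, hc⟩ hA
      · exact h1
    have left : ∀ w, ∀ i : Fin N, Pure h W w i → ∀ a ∈ X, ∀ b ∈ X, a i = b i := by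
      intro w i hi
      refine (hval i).resolve_right fun hinj => ?_
      obtain ⟨c, hc, h1⟩ := surj_of_inj hk hinj 1 (by omega)
      have h2 := one w i hi c hc h1
      obtain ⟨u, hu, v, hv, j, huv, h3⟩ := noV c hc
      exact vc_ne_ec hs4 huv.ne j (h2.symm.trans h3)
    obtain ⟨c, hc⟩ : X.Nonempty := Finset.card_pos.1 (by omega)
    obtain ⟨u, hu, v, hv, j, huv, rfl⟩ := noV c hc
    obtain ⟨c', hc', hne⟩ := Finset.exists_mem_ne (by omega : 1 < X.card) (ec h u v j)
    obtain ⟨x, hx, y, hy, j', hxy, rfl⟩ := noV c' hc'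
    have key : ∀ z : Fin V, z = u ∨ z = v → (z = x ∨ z = y) ∧ j' = j := by
      intro z hz
      obtain ⟨i, hi⟩ := pure z
      have h1 := congrArg Fin.val (left z i hi _ hc' _ hc)
      rw [ec_val hi hx hy hxy.ne, ec_val hi hu hv huv.ne, if_pos (by tauto : u = z ∨ v = z)] at h1
      split_ifs at h1 with h2
      exact ⟨by tauto, Fin.ext (by omega)⟩
    obtain ⟨h1, rfl⟩ := key u (Or.inl rfl)
    obtain ⟨h2, -⟩ := key v (Or.inr rfl)
    rcases h1 with rfl | rfl <;> rcases h2 with rfl | rfl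
    · exact huv.ne rfl
    · exact hne rfl
    · exact hne (ec_comm _ _ _ _)
    · exact huv.ne rfl

/-! ### The game -/

/-- the relation between sets of vertices and sets of cards -/
structure RS (h : ℕ → ℕ → Bool) (G : SimpleGraph (Fin V)) (S : Set (Fin V))
    (C : Set (Fin N → Fin (m + 3))) : Prop where
  v : ∀ u, vc h u ∈ C ↔ u ∈ S
  e : ∀ u w, G.Adj u w → u ∈ S → w ∈ S → ∀ j, ec h u w j ∈ C
  c : ∀ c ∈ C, IsCard h G c

theorem RS.next {h : ℕ → ℕ → Bool} (hs : Sep h N V 4) {G : SimpleGraph (Fin V)} {S : Set (Fin V)}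
    {C : Set (Fin N → Fin (m + 3))} (hR : RS h G S C) {u v : Fin V} (huv : u ≠ v) :
    RS h G (S \ {u, v}) (C \ ↑(SX h u v : Finset (Fin N → Fin (m + 3)))) := by
  refine ⟨?_, ?_, ?_⟩
  · intro w
    rw [Set.mem_diff, Set.mem_diff, hR.v, Finset.mem_coe, mem_SX]
    have h1 : (vc h w : Fin N → Fin (m + 3)) = vc h u ↔ w = u :=
      ⟨vc_inj hs, fun e => by rw [e]⟩
    have h2 : (vc h w : Fin N → Fin (m + 3)) = vc h v ↔ w = v :=
      ⟨vc_inj hs, fun e => by rw [e]⟩
    have h3 : (∃ j, (vc h w : Fin N → Fin (m + 3)) = ec h u v j) ↔ False :=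
      ⟨fun ⟨j, hj⟩ => vc_ne_ec hs huv j hj, False.elim⟩
    rw [h1, h2, h3]
    simp
  · intro x y hxy hx hy j
    refine ⟨hR.e x y hxy hx.1 hy.1 j, fun hc => ?_⟩
    rcases mem_SX.1 (Finset.mem_coe.1 hc) with e | e | ⟨j', e⟩
    · exact vc_ne_ec hs hxy.ne j e.symm
    · exact vc_ne_ec hs hxy.ne j e.symm
    · have h1 := hx.2
      simp only [Set.mem_insert_iff, Set.mem_singleton_iff, not_or] at h1
      rcases (ec_inj hs hxy.ne huv e).1 with ⟨h2, _⟩ | ⟨_, h2⟩
      · exact h1.1 h2.symm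
      · exact h1.2 h2.symm
  · intro c hc
    exact hR.c c hc.1

theorem setWins_graph {h : ℕ → ℕ → Bool} (hsep : Sep h N V (2 * (m + 3)))
    (G : SimpleGraph (Fin V)) {C : Set (Fin N → Fin (m + 3))} (hR : RS h G Set.univ C) :
    FirstWins G Set.univ ↔ SetWins C := by
  have hs4 : Sep h N V 4 := hsep.mono (by omega)
  rw [firstWins_iff, setWins_iff]
  refine W_bisim_iff (RS h G) ?_ ?_ hR
  · rintro S C _ hR ⟨u, v, hu, hv, huv, rfl⟩
    refine ⟨_, ⟨SX h u v, ?_, isSet_SX hs4 huv.ne, rfl⟩, hR.next hs4 huv.ne⟩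
    intro c hc
    rcases mem_SX.1 (Finset.mem_coe.1 hc) with rfl | rfl | ⟨j, rfl⟩
    · exact (hR.v u).2 hu
    · exact (hR.v v).2 hv
    · exact hR.e u v huv hu hv j
  · rintro S C _ hR ⟨X, hXC, hX, rfl⟩
    obtain ⟨u, v, huv, rfl⟩ := set_struct hsep (fun c hc => hR.c c (hXC (Finset.mem_coe.2 hc))) hX
    refine ⟨S \ {u, v}, ⟨u, v, (hR.v u).1 (hXC ?_), (hR.v v).1 (hXC ?_), huv, rfl⟩,
      hR.next hs4 huv.ne⟩
    · exact Finset.mem_coe.2 (mem_SX.2 (Or.inl rfl))
    · exact Finset.mem_coe.2 (mem_SX.2 (Or.inr (Or.inl rfl)))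

end Pool.Agent.Y386.SG
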