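import Mathlib

/-!
# The two-player game of SET with `k` values
-/

set_option autoImplicit false

namespace Pool.Agent.Y386.SG

/-- `k` cards (vectors with `n` attributes, each of which has one of `k` values) form a Set if for
every attribute their values are all equal or pairwise distinct. -/
def IsSet {n k : ℕ} (X : Finset (Fin n → Fin k)) : Prop :=
  X.card = k ∧ ∀ i, (∀ a ∈ X, ∀ b ∈ X, a i = b i) ∨ ∀ a ∈ X, ∀ b ∈ X, a i = b i → a = b

/-- The two-player game with the cards in `C` on the table. A move removes `k` cards of the table
which form a Set; a player with no legal move loses. The player to move wins if he has a move such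
that, whatever move the opponent makes next, he wins again on the remaining cards (in particular, if
the opponent has no move). -/
inductive SetWins {n k : ℕ} : Set (Fin n → Fin k) → Prop
  | move {C : Set (Fin n → Fin k)} (X : Finset (Fin n → Fin k)) (hXC : ↑X ⊆ C) (hX : IsSet X)
      (reply : ∀ Y : Finset (Fin n → Fin k), ↑Y ⊆ C \ ↑X → IsSet Y →
        SetWins ((C \ ↑X) \ ↑Y)) : SetWins C

/-- A card as a list of its values. -/
def cardCode {n k : ℕ} (c : Fin n → Fin k) : List ℕ := List.ofFn fun i => (c i).val

/-- The decision problem: given `n ≥ 1` and a list of distinct cards in `{0, ..., k - 1} ^ n`, does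
the first player win? -/
def SetGame (k : ℕ) (p : ℕ × List (List ℕ)) : Prop :=
  ∃ (n : ℕ) (C : List (Fin n → Fin k)), 1 ≤ n ∧ C.Nodup ∧ p = (n, C.map cardCode) ∧
    SetWins {c | c ∈ C}

end Pool.Agent.Y386.SG
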