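import Pool.Agent.Y386.SG.In

/-!
# The structure of the collections of cards of bipartite graphs, and the reduction
-/

set_option autoImplicit false

namespace Pool.Agent.Y386.SG

open Pool.Agent.NPC Pool.Agent.H623R2.PS
open Pool.Agent.H656R2.AK (FirstWins adjMatrix)
open Pool.Agent.Y386.AK (bip_reduction)

/-- The collection `C` of cards with `n` attributes has few attributes, namely at most
`(4 k + 1) ^ 2 (log |C| + 1) ^ 2` (the logarithm to base two, rounded down); the cards can be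
coloured with `k` colours such that the `k` cards of every Set (of cards in `C`) have different
colours; two different Sets have at most one card in common; and every Set has two cards such
that no other card of it belongs to a different Set. -/
def Nice {n k : ℕ} (C : List (Fin n → Fin k)) : Prop :=
  n ≤ (4 * k + 1) ^ 2 * (Nat.log 2 C.length + 1) ^ 2 ∧
  (∃ col : (Fin n → Fin k) → Fin k, ∀ X : Finset (Fin n → Fin k), (∀ c ∈ X, c ∈ C) → IsSet X →
    ∀ a ∈ X, ∀ b ∈ X, col a = col b → a = b) ∧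
  (∀ X Y : Finset (Fin n → Fin k), (∀ c ∈ X, c ∈ C) → (∀ c ∈ Y, c ∈ C) → IsSet X → IsSet Y →
    X ≠ Y → (X ∩ Y).card ≤ 1) ∧
  ∀ X : Finset (Fin n → Fin k), (∀ c ∈ X, c ∈ C) → IsSet X → ∃ P ⊆ X, P.card = 2 ∧
    ∀ Y : Finset (Fin n → Fin k), (∀ c ∈ Y, c ∈ C) → IsSet Y → X ≠ Y → X ∩ Y ⊆ P

variable {V N m : ℕ} {h : ℕ → ℕ → Bool} {G : SimpleGraph (Fin V)}

theorem inter_SX (hs : Sep h N V 4) {u v x y : Fin V} (huv : u ≠ v) (hxy : x ≠ y)
    (hne : (SX h u v : Finset (Fin N → Fin (m + 3))) ≠ SX h x y) :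
    ∃ w : Fin V, (w = u ∨ w = v) ∧
      (SX h u v : Finset (Fin N → Fin (m + 3))) ∩ SX h x y ⊆ {vc h w} := by
  have h1 : ∀ c ∈ (SX h u v : Finset (Fin N → Fin (m + 3))) ∩ SX h x y,
      ∃ z, (z = u ∨ z = v) ∧ (z = x ∨ z = y) ∧ c = vc h z := by
    intro c hc
    rw [Finset.mem_inter, mem_SX, mem_SX] at hc
    obtain ⟨h1, h2⟩ := hc
    have hv : ∀ z : Fin V, (z = u ∨ z = v) → c = vc h z →
        ∃ z, (z = u ∨ z = v) ∧ (z = x ∨ z = y) ∧ c = vc h z := by
      rintro z hz rfl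
      refine ⟨z, hz, ?_, rfl⟩
      rcases h2 with e | e | ⟨j, e⟩
      · exact Or.inl (vc_inj hs e)
      · exact Or.inr (vc_inj hs e)
      · exact absurd e (vc_ne_ec hs hxy j)
    rcases h1 with e | e | ⟨j, rfl⟩
    · exact hv u (Or.inl rfl) e
    · exact hv v (Or.inr rfl) e
    · exfalso
      rcases h2 with e | e | ⟨j', e⟩
      · exact vc_ne_ec hs huv j e.symm
      · exact vc_ne_ec hs huv j e.symm
      · rcases (ec_inj hs huv hxy e).1 with ⟨rfl, rfl⟩ | ⟨rfl, rfl⟩
        · exact hne rfl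
        · exact hne (SX_comm _ _ _)
  by_cases h2 : v = x ∨ v = y
  · refine ⟨v, Or.inr rfl, ?_⟩
    intro c hc
    obtain ⟨z, h3, h4, rfl⟩ := h1 c hc
    rw [Finset.mem_singleton]
    rcases h3 with rfl | rfl
    · exfalso
      rcases h2 with rfl | rfl <;> rcases h4 with rfl | rfl
      · exact huv rfl
      · exact hne (SX_comm _ _ _)
      · exact hne rfl
      · exact huv rfl
    · rfl
  · refine ⟨u, Or.inl rfl, ?_⟩
    intro c hc
    obtain ⟨z, h3, h4, rfl⟩ := h1 c hc
    rw [Finset.mem_singleton]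
    rcases h3 with rfl | rfl
    · rfl
    · exact absurd h4 h2

open Classical in
/-- the colour of a card -/
noncomputable def colr (h : ℕ → ℕ → Bool) (G : SimpleGraph (Fin V)) (c : Fin V → Bool)
    (x : Fin N → Fin (m + 3)) : Fin (m + 3) :=
  if ∃ u : Fin V, x = vc h u ∧ c u = true then ⟨0, by omega⟩
  else if ∃ u : Fin V, x = vc h u then ⟨1, by omega⟩
  else if hx : ∃ j : Fin (m + 1), ∃ u v : Fin V, G.Adj u v ∧ x = ec h u v j then
    ⟨hx.choose.val + 2, by omega⟩ else ⟨0, by omega⟩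

theorem colr_vc (hs : Sep h N V 4) (c : Fin V → Bool) (u : Fin V) :
    (colr h G c (vc h u : Fin N → Fin (m + 3))).val = if c u = true then 0 else 1 := by
  unfold colr
  by_cases e : c u = true
  · rw [if_pos ⟨u, rfl, e⟩, if_pos e]
  · rw [if_neg, if_pos ⟨u, rfl⟩, if_neg e]
    rintro ⟨u', h1, h2⟩
    rw [vc_inj hs h1] at e
    exact e h2

theorem colr_ec (hs : Sep h N V 4) (c : Fin V → Bool) {u v : Fin V} (huv : G.Adj u v)
    (j : Fin (m + 1)) : (colr h G c (ec h u v j : Fin N → Fin (m + 3))).val = j.val + 2 := by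
  unfold colr
  have h1 : ¬ ∃ u' : Fin V, (ec h u v j : Fin N → Fin (m + 3)) = vc h u' := by
    rintro ⟨u', e⟩
    exact vc_ne_ec hs huv.ne j e.symm
  have hx : ∃ j' : Fin (m + 1), ∃ u' v' : Fin V, G.Adj u' v' ∧
      (ec h u v j : Fin N → Fin (m + 3)) = ec h u' v' j' := ⟨j, u, v, huv, rfl⟩
  rw [if_neg (fun ⟨u', e, _⟩ => h1 ⟨u', e⟩), if_neg h1, dif_pos hx]
  obtain ⟨u', v', h2, h3⟩ := hx.choose_spec
  have h4 := (ec_inj hs huv.ne h2.ne h3).2
  simp only
  rw [← h4]

theorem nice_of (hsep : Sep h N V (2 * (m + 3))) {C : List (Fin N → Fin (m + 3))}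
    (hC : ∀ c, c ∈ C ↔ IsCard h G c) {c : Fin V → Bool} (hc : ∀ i j, G.Adj i j → c i ≠ c j)
    (hN : N ≤ (4 * (m + 3) + 1) ^ 2 * (Nat.log 2 C.length + 1) ^ 2) : Nice C := by
  have hs : Sep h N V 4 := hsep.mono (by omega)
  have hst : ∀ X : Finset (Fin N → Fin (m + 3)), (∀ c ∈ X, c ∈ C) → IsSet X →
      ∃ u v, G.Adj u v ∧ X = SX h u v := fun X hX hS =>
    set_struct hsep (fun c hc => (hC c).1 (hX c hc)) hS
  refine ⟨hN, ?_, ?_, ?_⟩
  · refine ⟨colr h G c, ?_⟩
    intro X hX hS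
    obtain ⟨u, v, huv, rfl⟩ := hst X hX hS
    have hv := colr_vc (G := G) (N := N) (m := m) hs c
    have he := fun j => colr_ec (N := N) (m := m) hs c huv j
    have hcuv := hc u v huv
    intro a ha b hb e
    have e' := congrArg Fin.val e
    rcases mem_SX.1 ha with rfl | rfl | ⟨j, rfl⟩ <;> rcases mem_SX.1 hb with rfl | rfl | ⟨j', rfl⟩
    · rfl
    · exfalso
      simp only [hv] at e'
      cases h1 : c u <;> cases h2 : c v <;> simp_all
    · exfalso
      simp only [hv, he] at e'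
      split_ifs at e' <;> omega
    · exfalso
      simp only [hv] at e'
      cases h1 : c u <;> cases h2 : c v <;> simp_all
    · rfl
    · exfalso
      simp only [hv, he] at e'
      split_ifs at e' <;> omega
    · exfalso
      simp only [hv, he] at e'
      split_ifs at e' <;> omega
    · exfalso
      simp only [hv, he] at e'
      split_ifs at e' <;> omega
    · simp only [he] at e'
      rw [Fin.ext (by omega : j.val = j'.val)]
  · intro X Y hX hY hSX hSY hne
    obtain ⟨u, v, huv, rfl⟩ := hst X hX hSX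
    obtain ⟨x, y, hxy, rfl⟩ := hst Y hY hSY
    obtain ⟨w, -, h1⟩ := inter_SX hs huv.ne hxy.ne hne
    exact (Finset.card_le_card h1).trans (by simp)
  · intro X hX hSX
    obtain ⟨u, v, huv, rfl⟩ := hst X hX hSX
    refine ⟨{vc h u, vc h v}, ?_, Finset.card_pair fun e => huv.ne (vc_inj hs e), ?_⟩
    · intro z hz
      rw [Finset.mem_insert, Finset.mem_singleton] at hz
      rcases hz with rfl | rfl
      · exact mem_SX.2 (Or.inl rfl)
      · exact mem_SX.2 (Or.inr (Or.inl rfl))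
    · intro Y hY hSY hne
      obtain ⟨x, y, hxy, rfl⟩ := hst Y hY hSY
      obtain ⟨w, hw, h1⟩ := inter_SX hs huv.ne hxy.ne hne
      refine h1.trans ?_
      intro z hz
      rw [Finset.mem_singleton] at hz
      subst hz
      rcases hw with rfl | rfl <;> simp

theorem NN_le {n : ℕ} (m : ℕ) (G : SimpleGraph (Fin n)) : NN m (adjMatrix G) ≤
    (4 * (m + 3) + 1) ^ 2 * (Nat.log 2 (cardsN m (adjMatrix G)).length + 1) ^ 2 := by
  have h1 := length_cardsN (m := m) G
  have h2 : (adjMatrix G).length.bits.length ≤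
      Nat.log 2 (cardsN m (adjMatrix G)).length + 1 := by
    rw [length_adjMatrix, Nat.size_eq_bits_len]
    rcases Nat.eq_zero_or_pos n with h0 | h0
    · subst h0
      simp
    · rw [Nat.size_le]
      refine lt_of_le_of_lt h1 ?_
      exact Nat.lt_pow_succ_log_self (by norm_num) _
  unfold NN MM
  rw [← mul_pow, ← sq]
  refine Nat.pow_le_pow_left ?_ 2
  nlinarith

/-- the reduction -/
theorem reduction (m : ℕ) {L : Set (List Bool)} (hL : InPSPACE L) :
    ∃ f : List Bool → ℕ × List (List ℕ), NPC.Poly f ∧ ∀ x, ∃ (n : ℕ)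
      (C : List (Fin n → Fin (m + 3))), 1 ≤ n ∧ C.Nodup ∧ f x = (n, C.map cardCode) ∧ Nice C ∧
        (x ∈ L ↔ SetWins {c | c ∈ C}) := by
  obtain ⟨g, hg, hg'⟩ := bip_reduction hL
  have h1 : NPC.Poly (fun x => (NN m (g x).2, cardsN m (g x).2)) :=
    ((uPoly_NN m).toPoly.comp (NPC.Poly.snd hg)).pair ((poly_cardsN m).comp (NPC.Poly.snd hg))
  refine ⟨_, h1, fun x => ?_⟩
  obtain ⟨n, G, c, hc, -, h2, h3⟩ := hg' x
  obtain ⟨C, hC, h4, h5, h6⟩ := game_of m G
  refine ⟨NN m (adjMatrix G), C, ?_, hC, ?_, ?_, ?_⟩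
  · unfold NN
    exact Nat.succ_le_of_lt (Nat.mul_pos (Nat.succ_pos _) (Nat.succ_pos _))
  · rw [h4, h2]
  · refine nice_of (sep_MM m _ (length_adjMatrix G)) h5 hc ?_
    have h7 := NN_le m G
    rw [← h4, List.length_map] at h7
    exact h7
  · rw [h3, h6]

theorem setGame_hard (m : ℕ) : PSPACEHard (lang (SetGame (m + 3))) := by
  intro L hL
  obtain ⟨f, hf, hf'⟩ := reduction m hL
  refine ⟨fun x => bits (f x), polyTime_bits hf, fun x => ?_⟩
  rw [bits_mem_lang]
  obtain ⟨n, C, hn, hC, h1, -, h2⟩ := hf' x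
  rw [h2, h1]
  constructor
  · exact fun h => ⟨n, C, hn, hC, rfl, h⟩
  · rintro ⟨n', D, _, hD, hp, hW⟩
    rw [Prod.mk.injEq] at hp
    obtain ⟨rfl, hp⟩ := hp
    have : D = C := List.map_injective_iff.2 (fun a b h => cardCode_inj h) hp.symm
    rwa [← this]

end Pool.Agent.Y386.SG
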