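import Pool.Agent.Y386.SG.Comb

/-!
# Few coordinates: residues modulo small numbers
-/

set_option autoImplicit false

namespace Pool.Agent.Y386.SG

/-- the coordinate `i = (M + 1) q + r` looks at the vertices which are `r` modulo `q` -/
def hsh (M i v : ℕ) : Bool := decide (v % (i / (M + 1)) = i % (M + 1))

theorem dvd_of_small {n P : ℕ} (hn : 0 < n) (h : ∀ q, 1 ≤ q → q ≤ 2 * n → q ∣ P) :
    n.centralBinom ∣ P := by
  rw [Nat.dvd_iff_prime_pow_dvd_dvd]
  intro p a hp hpa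
  have h1 : a ≤ (Nat.centralBinom n).factorization p :=
    (hp.pow_dvd_iff_le_factorization (Nat.centralBinom_ne_zero n)).1 hpa
  have h2 : p ^ ((Nat.choose (2 * n) n).factorization p) ≤ 2 * n :=
    Nat.pow_factorization_choose_le (by omega)
  have h3 : p ^ a ≤ 2 * n := (Nat.pow_le_pow_right hp.pos h1).trans h2
  exact h _ (Nat.pos_of_ne_zero (pow_ne_zero _ hp.ne_zero)) h3

theorem sep_hsh {V L s M : ℕ} (hV : V ≤ 2 ^ L) (hL : 1 ≤ L) (hs : 4 ≤ s) (hM : 2 * (L * s) ≤ M) :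
    Sep (hsh M) ((M + 1) * (M + 1)) V s := by
  intro w W hwW hWs
  by_contra hcon
  push Not at hcon
  have h1 : ∀ q, 1 ≤ q → q ≤ M → ∃ v ∈ W, v.val % q = w.val % q := by
    intro q hq hqM
    have hr : w.val % q < M + 1 := (Nat.mod_lt _ hq).trans_le (by omega)
    have hi : q * (M + 1) + w.val % q < (M + 1) * (M + 1) := by nlinarith
    have e1 : (q * (M + 1) + w.val % q) / (M + 1) = q := by
      rw [Nat.mul_comm, Nat.mul_add_div (by omega), Nat.div_eq_of_lt hr, add_zero]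
    have e2 : (q * (M + 1) + w.val % q) % (M + 1) = w.val % q := by
      rw [Nat.mul_comm, Nat.mul_add_mod, Nat.mod_eq_of_lt hr]
    obtain ⟨v, hv, h2⟩ := hcon ⟨_, hi⟩ (by simp only [hsh]; rw [e1, e2]; simp)
    refine ⟨v, hv, ?_⟩
    simp only [hsh, ne_eq, Bool.not_eq_false, decide_eq_true_eq] at h2
    rwa [e1, e2] at h2
  set P : ℕ := ∏ v ∈ W, ((w.val : ℤ) - v.val).natAbs with hP
  have hP0 : 0 < P := by
    refine Finset.prod_pos fun v hv => ?_
    have : v ≠ w := fun e => hwW (e ▸ hv)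
    have : v.val ≠ w.val := fun e => this (Fin.ext e)
    omega
  have h2 : ∀ q, 1 ≤ q → q ≤ M → q ∣ P := by
    intro q hq hqM
    obtain ⟨v, hv, h3⟩ := h1 q hq hqM
    refine Dvd.dvd.trans ?_ (Finset.dvd_prod_of_mem _ hv)
    have h4 : (q : ℤ) ∣ (w.val : ℤ) - v.val := by
      have h5 : v.val ≡ w.val [MOD q] := h3
      exact (Nat.modEq_iff_dvd).1 h5
    exact Int.natCast_dvd.1 h4
  have hn : 4 ≤ L * s := by nlinarith
  have h3 : (L * s).centralBinom ∣ P := dvd_of_small (by omega) fun q h4 h5 => h2 q h4 (by omega)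
  have h4 : P ≤ 2 ^ (L * s) := by
    calc P ≤ ∏ v ∈ W, 2 ^ L := by
          refine Finset.prod_le_prod' fun v hv => ?_
          have := v.isLt
          have := w.isLt
          omega
      _ = (2 ^ L) ^ W.card := by rw [Finset.prod_const]
      _ ≤ (2 ^ L) ^ s := Nat.pow_le_pow_right (Nat.pos_of_ne_zero (by positivity)) hWs
      _ = 2 ^ (L * s) := by rw [pow_mul]
  have h5 := Nat.four_pow_lt_mul_centralBinom (L * s) hn
  have h6 : (L * s).centralBinom ≤ 2 ^ (L * s) := (Nat.le_of_dvd hP0 h3).trans h4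
  have h7 : L * s < 2 ^ (L * s) := Nat.lt_two_pow_self
  have h8 : (4 : ℕ) ^ (L * s) = 2 ^ (L * s) * 2 ^ (L * s) := by
    rw [← mul_pow]
    norm_num
  have h9 : L * s * (L * s).centralBinom ≤ 2 ^ (L * s) * 2 ^ (L * s) := Nat.mul_le_mul h7.le h6
  omega

end Pool.Agent.Y386.SG
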