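import Pool.Agent.Y386.SG.CodesPoly
import Pool.Agent.H656R2.AK.GameIn

/-!
# The two-player game of SET with `k` values is in `PSPACE`
-/

set_option autoImplicit false

namespace Pool.Agent.Y386.SG

open Pool.Agent.NPC Pool.Agent.H623R2.PS
open Pool.Agent.H656R2.AK (W W_bisim_iff mvL mem_prod sz_filter_le' inPSPACE_of_game)

/-- the lists of `s` members of `L` -/
def tup : ℕ → List (List ℕ) → List (List (List ℕ))
  | 0, _ => [[]]
  | s + 1, L => (L ×ˢ tup s L).map fun p => p.1 :: p.2

theorem mem_tup {s : ℕ} {L : List (List ℕ)} {t : List (List ℕ)} :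
    t ∈ tup s L ↔ t.length = s ∧ ∀ x ∈ t, x ∈ L := by
  induction s generalizing t with
  | zero =>
    simp only [tup, List.mem_singleton]
    constructor
    · rintro rfl
      simp
    · rintro ⟨h, -⟩
      exact List.length_eq_zero_iff.1 h
  | succ s ih =>
    simp only [tup, List.mem_map]
    constructor
    · rintro ⟨⟨x, t'⟩, h, rfl⟩
      rw [mem_prod, ih] at h
      refine ⟨by simp [h.2.1], ?_⟩
      intro y hy
      rcases List.mem_cons.1 hy with rfl | hy
      · exact h.1
      · exact h.2.2 y hy
    · rintro ⟨h1, h2⟩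
      cases t with
      | nil => simp at h1
      | cons x t' =>
        refine ⟨(x, t'), mem_prod.2 ⟨h2 x List.mem_cons_self, ih.2 ⟨?_, fun y hy =>
          h2 y (List.mem_cons_of_mem _ hy)⟩⟩, rfl⟩
        simpa using h1

theorem length_tup (s : ℕ) (L : List (List ℕ)) : (tup s L).length = L.length ^ s := by
  induction s with
  | zero => rfl
  | succ s ih =>
    rw [tup, List.length_map, List.length_product, ih, pow_succ, mul_comm]

theorem poly_tup (s : ℕ) : NPC.Poly (tup s) := by
  induction s with
  | zero => exact NPC.Poly.const [[]]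
  | succ s ih =>
    exact NPC.Poly.map (l := fun L : List (List ℕ) => L ×ˢ tup s L)
      (F := fun _ (p : List ℕ × List (List ℕ)) => p.1 :: p.2)
      (R671.poly_product NPC.Poly.id ih)
      (NPC.Poly.cons (NPC.Poly.fst (NPC.Poly.snd NPC.Poly.id))
        (NPC.Poly.snd (NPC.Poly.snd NPC.Poly.id)))

/-- the members of the list are distinct -/
def ndup (L : List (List ℕ)) : Bool :=
  (List.range L.length).all fun i => (List.range L.length).all fun j =>
    decide (i = j) || !decide (L.getD i [] = L.getD j [])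

theorem ndup_iff (L : List (List ℕ)) : ndup L = true ↔ L.Nodup := by
  unfold ndup
  simp only [List.all_eq_true, List.mem_range, Bool.or_eq_true, Bool.not_eq_true',
    decide_eq_false_iff_not, decide_eq_true_eq]
  rw [List.nodup_iff_injective_get]
  constructor
  · intro h i j hij
    rcases h i.val i.isLt j.val j.isLt with h3 | h3
    · exact Fin.ext h3
    · exfalso
      apply h3
      simpa [List.getD_eq_getElem?_getD] using hij
  · intro hnd i hi j hj
    by_cases hij : i = j
    · exact Or.inl hij
    · right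
      intro h
      have := @hnd ⟨i, hi⟩ ⟨j, hj⟩ (by
        simpa [List.getD_eq_getElem?_getD, List.getElem?_eq_getElem hi,
          List.getElem?_eq_getElem hj] using h)
      exact hij (congrArg Fin.val this)

theorem poly_ndup : NPC.Poly ndup := by
  have h : UPoly (fun p : List (List ℕ) => p.length) := UPoly.length (by fun_prop)
  have h1 := h.range
  have h3 : NPC.Poly (fun q : List (List ℕ) × ℕ => (List.range q.1.length).all fun j =>
      decide (q.2 = j) || !decide (q.1.getD q.2 [] = q.1.getD j [])) :=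
    NPC.Poly.all (l := fun q : List (List ℕ) × ℕ => List.range q.1.length)
      (p := fun q j => decide (q.2 = j) || !decide (q.1.getD q.2 [] = q.1.getD j []))
      (h1.comp (NPC.Poly.fst NPC.Poly.id)) (by fun_prop)
  exact NPC.Poly.all (l := fun p : List (List ℕ) => List.range p.length)
      (p := fun p i => (List.range p.length).all fun j =>
        decide (i = j) || !decide (p.getD i [] = p.getD j [])) h1 h3

/-- the values of the attribute `i` are equal -/
def allEq (t : List (List ℕ)) (i : ℕ) : Bool :=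
  t.all fun a => t.all fun b => decide (a.getD i 0 = b.getD i 0)

/-- the values of the attribute `i` are distinct -/
def allNe (t : List (List ℕ)) (i : ℕ) : Bool :=
  t.all fun a => t.all fun b => !decide (a.getD i 0 = b.getD i 0) || decide (a = b)

/-- the test for a Set, on codes -/
def setN (n : ℕ) (t : List (List ℕ)) : Bool :=
  ndup t && (List.range n).all fun i => allEq t i || allNe t i

theorem poly_allEq : NPC.Poly (fun q : List (List ℕ) × ℕ => allEq q.1 q.2) := by
  have h1 : NPC.Poly (fun q : (List (List ℕ) × ℕ) × List ℕ =>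
      q.1.1.all fun b => decide (q.2.getD q.1.2 0 = b.getD q.1.2 0)) :=
    NPC.Poly.all (l := fun q : (List (List ℕ) × ℕ) × List ℕ => q.1.1)
      (p := fun q b => decide (q.2.getD q.1.2 0 = b.getD q.1.2 0))
      (NPC.Poly.fst (NPC.Poly.fst NPC.Poly.id)) (by fun_prop)
  exact NPC.Poly.all (l := fun q : List (List ℕ) × ℕ => q.1)
    (p := fun q a => q.1.all fun b => decide (a.getD q.2 0 = b.getD q.2 0))
    (NPC.Poly.fst NPC.Poly.id) h1

theorem poly_allNe : NPC.Poly (fun q : List (List ℕ) × ℕ => allNe q.1 q.2) := by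
  have h1 : NPC.Poly (fun q : (List (List ℕ) × ℕ) × List ℕ =>
      q.1.1.all fun b => !decide (q.2.getD q.1.2 0 = b.getD q.1.2 0) || decide (q.2 = b)) :=
    NPC.Poly.all (l := fun q : (List (List ℕ) × ℕ) × List ℕ => q.1.1)
      (p := fun q b => !decide (q.2.getD q.1.2 0 = b.getD q.1.2 0) || decide (q.2 = b))
      (NPC.Poly.fst (NPC.Poly.fst NPC.Poly.id)) (by fun_prop)
  exact NPC.Poly.all (l := fun q : List (List ℕ) × ℕ => q.1)
    (p := fun q a => q.1.all fun b => !decide (a.getD q.2 0 = b.getD q.2 0) || decide (a = b))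
    (NPC.Poly.fst NPC.Poly.id) h1

/-- The number of attributes is at most the size of the input, if there is a card: the attributes
which are tested are those of the first card. -/
def setNL (t : List (List ℕ)) : Bool :=
  ndup t && (List.range ((t.getD 0 []).length)).all fun i => allEq t i || allNe t i

theorem poly_setNL : NPC.Poly setNL := by
  have h : UPoly (fun t : List (List ℕ) => (t.getD 0 []).length) := UPoly.length (by fun_prop)
  exact poly_ndup.and (NPC.Poly.all (l := fun t : List (List ℕ) =>
    List.range ((t.getD 0 []).length)) (p := fun t i => allEq t i || allNe t i) h.range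
    (poly_allEq.or poly_allNe))

theorem getD_cardCode {n k : ℕ} (c : Fin n → Fin k) (i : Fin n) :
    (cardCode c).getD i 0 = (c i).val := by
  simp [cardCode, List.getD_eq_getElem?_getD]

theorem length_cardCode {n k : ℕ} (c : Fin n → Fin k) : (cardCode c).length = n := by
  simp [cardCode]

theorem setNL_iff {n k : ℕ} (T : List (Fin n → Fin k)) (hk : 0 < k) (hT : T.length = k) :
    setNL (T.map cardCode) = true ↔ T.Nodup ∧ IsSet T.toFinset := by
  have hlen : ((T.map cardCode).getD 0 []).length = n := by
    cases T with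
    | nil => simp at hT; omega
    | cons a T => simp [length_cardCode]
  unfold setNL
  rw [Bool.and_eq_true, ndup_iff, List.nodup_map_iff fun a b h => cardCode_inj h, hlen]
  refine and_congr_right fun hnd => ?_
  unfold IsSet
  rw [List.toFinset_card_of_nodup hnd]
  simp only [hT, true_and, List.all_eq_true, List.mem_range, Bool.or_eq_true, List.mem_toFinset]
  have key : ∀ i : Fin n, (allEq (T.map cardCode) i = true ↔ ∀ a ∈ T, ∀ b ∈ T, a i = b i) ∧
      (allNe (T.map cardCode) i = true ↔ ∀ a ∈ T, ∀ b ∈ T, a i = b i → a = b) := by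
    intro i
    have hc : ∀ a b : Fin n → Fin k, cardCode a = cardCode b ↔ a = b :=
      fun a b => ⟨cardCode_inj, fun e => by rw [e]⟩
    constructor
    · unfold allEq
      simp only [List.all_eq_true, List.mem_map, forall_exists_index, and_imp,
        forall_apply_eq_imp_iff₂, getD_cardCode, decide_eq_true_eq, Fin.ext_iff]
    · unfold allNe
      simp only [List.all_eq_true, List.mem_map, forall_exists_index, and_imp,
        forall_apply_eq_imp_iff₂, getD_cardCode, decide_eq_true_eq, Bool.or_eq_true,
        Bool.not_eq_true', decide_eq_false_iff_not, hc, ← Fin.ext_iff]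
      refine forall₂_congr fun a _ => forall₂_congr fun b _ => ?_
      tauto
  constructor
  · intro h i
    rcases h i i.isLt with h1 | h1
    · exact Or.inl ((key i).1.1 h1)
    · exact Or.inr ((key i).2.1 h1)
  · intro h i hi
    rcases h ⟨i, hi⟩ with h1 | h1
    · exact Or.inl ((key ⟨i, hi⟩).1.2 h1)
    · exact Or.inr ((key ⟨i, hi⟩).2.2 h1)

/-- the test whether the input is a list of distinct cards -/
def validS (k : ℕ) (p : ℕ × List (List ℕ)) : Bool :=
  decide (1 ≤ p.1) && ((p.2.all fun l => decide (l.length = p.1) && l.all fun d => decide (d < k)) &&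
    ndup p.2)

theorem exists_code {n k : ℕ} {l : List ℕ} (h1 : l.length = n) (h2 : ∀ d ∈ l, d < k) :
    ∃ c : Fin n → Fin k, cardCode c = l := by
  subst h1
  refine ⟨fun i => ⟨l[i], h2 _ (List.getElem_mem i.isLt)⟩, ?_⟩
  unfold cardCode
  apply List.ext_getElem
  · simp
  · intro i h1 h3
    simp

theorem exists_codes {n k : ℕ} {L : List (List ℕ)}
    (h : ∀ l ∈ L, ∃ c : Fin n → Fin k, cardCode c = l) :
    ∃ C : List (Fin n → Fin k), C.map cardCode = L := by
  induction L with
  | nil => exact ⟨[], rfl⟩
  | cons l L ih =>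
    obtain ⟨C, hC⟩ := ih fun l hl => h l (List.mem_cons_of_mem _ hl)
    obtain ⟨c, hc⟩ := h l List.mem_cons_self
    exact ⟨c :: C, by rw [List.map_cons, hC, hc]⟩

theorem validS_iff {n k : ℕ} {L : List (List ℕ)} : validS k (n, L) = true ↔
    ∃ C : List (Fin n → Fin k), 1 ≤ n ∧ C.Nodup ∧ L = C.map cardCode := by
  unfold validS
  simp only [Bool.and_eq_true, decide_eq_true_eq, List.all_eq_true, ndup_iff]
  constructor
  · rintro ⟨hn, h1, h2⟩
    obtain ⟨C, hC⟩ := exists_codes (n := n) (k := k) fun l hl =>
      exists_code (h1 l hl).1 (h1 l hl).2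
    refine ⟨C, hn, ?_, hC.symm⟩
    apply List.Nodup.of_map cardCode
    rwa [hC]
  · rintro ⟨C, hn, hC, rfl⟩
    refine ⟨hn, ?_, hC.map fun a b h => cardCode_inj h⟩
    intro l hl
    rw [List.mem_map] at hl
    obtain ⟨c, _, rfl⟩ := hl
    refine ⟨length_cardCode c, ?_⟩
    intro d hd
    unfold cardCode at hd
    rw [List.mem_ofFn] at hd
    obtain ⟨i, rfl⟩ := hd
    exact (c i).isLt

/-- the moves on lists of cards -/
def setMoves (k : ℕ) (b : ℕ × List (List ℕ)) : List (ℕ × List (List ℕ)) :=
  ((tup k b.2).filter setNL).map fun t => (b.1, b.2.filter fun x => !decide (x ∈ t))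

theorem mem_setMoves {k : ℕ} {b b' : ℕ × List (List ℕ)} : b' ∈ setMoves k b ↔
    ∃ t : List (List ℕ), t.length = k ∧ (∀ x ∈ t, x ∈ b.2) ∧ setNL t = true ∧
      b' = (b.1, b.2.filter fun x => !decide (x ∈ t)) := by
  unfold setMoves
  rw [List.mem_map]
  constructor
  · rintro ⟨t, h, rfl⟩
    rw [List.mem_filter, mem_tup] at h
    exact ⟨t, h.1.1, h.1.2, h.2, rfl⟩
  · rintro ⟨t, h1, h2, h3, rfl⟩
    exact ⟨t, List.mem_filter.2 ⟨mem_tup.2 ⟨h1, h2⟩, h3⟩, rfl⟩

theorem poly_setMoves (k : ℕ) : NPC.Poly (setMoves k) := by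
  have h1 : NPC.Poly (fun b : ℕ × List (List ℕ) => (tup k b.2).filter setNL) :=
    NPC.Poly.filter (l := fun b : ℕ × List (List ℕ) => tup k b.2)
      (p := fun _ t => setNL t) ((poly_tup k).comp (NPC.Poly.snd NPC.Poly.id))
      (poly_setNL.comp (NPC.Poly.snd NPC.Poly.id))
  refine NPC.Poly.map (F := fun (b : ℕ × List (List ℕ)) (t : List (List ℕ)) =>
    (b.1, b.2.filter fun x => !decide (x ∈ t))) h1 ?_
  refine NPC.Poly.pair (NPC.Poly.fst (NPC.Poly.fst NPC.Poly.id)) ?_
  exact NPC.Poly.filter (l := fun q : (ℕ × List (List ℕ)) × List (List ℕ) => q.1.2)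
    (p := fun q x => !decide (x ∈ q.2)) (NPC.Poly.snd (NPC.Poly.fst NPC.Poly.id)) (by fun_prop)

theorem poly_validS (k : ℕ) : NPC.Poly (validS k) := by
  have h0 : NPC.Poly (fun q : (ℕ × List (List ℕ)) × List ℕ => q.2.all fun d => decide (d < k)) :=
    NPC.Poly.all (l := fun q : (ℕ × List (List ℕ)) × List ℕ => q.2)
      (p := fun _ d => decide (d < k)) (by fun_prop) (by fun_prop)
  have h2 : NPC.Poly (fun p : ℕ × List (List ℕ) => p.2.all fun l =>
      decide (l.length = p.1) && l.all fun d => decide (d < k)) :=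
    NPC.Poly.all (l := fun p : ℕ × List (List ℕ) => p.2)
      (p := fun p l => decide (l.length = p.1) && l.all fun d => decide (d < k)) (by fun_prop)
      (NPC.Poly.and (by fun_prop) h0)
  exact NPC.Poly.and (by fun_prop) (h2.and (poly_ndup.comp (NPC.Poly.snd NPC.Poly.id)))

/-- the relation between lists of codes and sets of cards -/
def RlS (n k : ℕ) (b : ℕ × List (List ℕ)) (C : Set (Fin n → Fin k)) : Prop :=
  (∀ c : Fin n → Fin k, cardCode c ∈ b.2 ↔ c ∈ C) ∧ ∀ l ∈ b.2, ∃ c : Fin n → Fin k, cardCode c = l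

theorem W_setList_iff {n k : ℕ} (hk : 0 < k) (C : List (Fin n → Fin k)) :
    W (mvL (setMoves k)) (n, C.map cardCode) ↔ SetWins {c | c ∈ C} := by
  rw [setWins_iff]
  have hinj : Function.Injective (cardCode : (Fin n → Fin k) → List ℕ) :=
    fun a b h => cardCode_inj h
  refine W_bisim_iff (RlS n k) ?_ ?_ ⟨fun c => ?_, ?_⟩
  · rintro ⟨m, L⟩ T b' ⟨h2, h3⟩ hm
    simp only at h2 h3
    rw [mvL, mem_setMoves] at hm
    obtain ⟨t, ht, htL, hs, rfl⟩ := hm
    simp only at htL
    obtain ⟨X, rfl⟩ := exists_codes (n := n) (k := k) fun l hl => h3 l (htL l hl)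
    rw [List.length_map] at ht
    obtain ⟨hnd, hset⟩ := (setNL_iff X hk ht).1 hs
    refine ⟨_, ⟨X.toFinset, ?_, hset, rfl⟩, ?_, ?_⟩
    · intro c hc
      rw [Finset.mem_coe, List.mem_toFinset] at hc
      exact (h2 c).1 (htL _ (List.mem_map_of_mem hc))
    · intro c
      simp only [List.mem_filter, h2 c, Set.mem_sdiff, Finset.mem_coe, List.mem_toFinset,
        Bool.not_eq_true', decide_eq_false_iff_not, List.mem_map_of_injective hinj]
    · intro l hl
      exact h3 l (List.mem_filter.1 hl).1
  · rintro ⟨m, L⟩ T T' ⟨h2, h3⟩ hm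
    simp only at h2 h3
    obtain ⟨X, hXT, hX, rfl⟩ := hm
    have hlen : X.toList.length = k := by rw [Finset.length_toList, hX.1]
    refine ⟨(m, L.filter fun x => !decide (x ∈ X.toList.map cardCode)), ?_, ?_, ?_⟩
    · rw [mvL, mem_setMoves]
      refine ⟨X.toList.map cardCode, by rw [List.length_map, hlen], ?_, ?_, rfl⟩
      · intro l hl
        obtain ⟨c, hc, rfl⟩ := List.mem_map.1 hl
        exact (h2 c).2 (hXT (Finset.mem_coe.2 (Finset.mem_toList.1 hc)))
      · rw [setNL_iff _ hk hlen]
        refine ⟨Finset.nodup_toList X, ?_⟩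
        rwa [Finset.toList_toFinset]
    · intro c
      simp only [List.mem_filter, h2 c, Set.mem_sdiff, Finset.mem_coe,
        Bool.not_eq_true', decide_eq_false_iff_not, List.mem_map_of_injective hinj,
        Finset.mem_toList]
    · intro l hl
      exact h3 l (List.mem_filter.1 hl).1
  · simp only [Set.mem_ofPred_eq, List.mem_map_of_injective hinj]
  · intro l hl
    simp only [List.mem_map] at hl
    obtain ⟨c, _, h⟩ := hl
    exact ⟨c, h⟩

theorem setGame_valid {k : ℕ} (hk : 0 < k) (p : ℕ × List (List ℕ)) :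
    SetGame k p ↔ validS k p = true ∧ W (mvL (setMoves k)) p := by
  obtain ⟨m, L⟩ := p
  rw [validS_iff]
  constructor
  · rintro ⟨n, C, hn, hC, hp, h⟩
    rw [Prod.mk.injEq] at hp
    obtain ⟨rfl, rfl⟩ := hp
    exact ⟨⟨C, hn, hC, rfl⟩, (W_setList_iff hk C).2 h⟩
  · rintro ⟨⟨C, hn, hC, rfl⟩, h⟩
    exact ⟨m, C, hn, hC, rfl, (W_setList_iff hk C).1 h⟩

theorem uPoly_pow {α : Type} [TEnc α] {w : α → ℕ} (hw : UPoly w) (k : ℕ) :
    UPoly (fun x => w x ^ k) := by
  induction k with
  | zero => exact (UPoly.const 1)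
  | succ k ih => exact (ih.mul hw)

theorem setGame_mem {k : ℕ} (hk : 0 < k) : InPSPACE (lang (SetGame k)) := by
  have hdec : NPC.Poly (fun x : List Bool => (unbits (ℕ × List (List ℕ)) x).getD (0, [])) :=
    NPC.Poly.optGetD poly_unbits (NPC.Poly.const (0, []))
  have hlen : UPoly (fun x : List Bool =>
      ((unbits (ℕ × List (List ℕ)) x).getD (0, [])).2.length) :=
    UPoly.length (NPC.Poly.snd hdec)
  refine inPSPACE_of_game hdec (good := validS k) (poly_validS k) (poly_setMoves k) ?_
    (w := fun x => ((unbits (ℕ × List (List ℕ)) x).getD (0, [])).2.length ^ k +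
      (((unbits (ℕ × List (List ℕ)) x).getD (0, [])).2.length + 1)) ?_
    (fun x b => b.2.length ≤ ((unbits (ℕ × List (List ℕ)) x).getD (0, [])).2.length)
    (fun b => b.2.length) ?_ ?_ ?_ ?_
  · intro b b' hb'
    rw [mem_setMoves] at hb'
    obtain ⟨t, -, -, -, rfl⟩ := hb'
    obtain ⟨M, S⟩ := b
    simp only [sz_pair]
    have := sz_filter_le' (fun x => !decide (x ∈ t)) S
    omega
  · exact (uPoly_pow hlen k).add (hlen.add (UPoly.const 1))
  · intro x
    exact le_rfl
  · rintro x b hb b' hb'
    rw [mem_setMoves] at hb'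
    obtain ⟨t, ht, htL, -, rfl⟩ := hb'
    simp only
    have h1 : (b.2.filter fun x => !decide (x ∈ t)).length < b.2.length := by
      rw [List.length_filter_lt_length_iff_exists]
      cases t with
      | nil => simp at ht; omega
      | cons a t => exact ⟨a, htL a List.mem_cons_self, by simp⟩
    exact ⟨by omega, h1⟩
  · intro x b hb
    have h1 : (setMoves k b).length ≤ b.2.length ^ k := by
      unfold setMoves
      rw [List.length_map]
      refine (List.length_filter_le _ _).trans ?_
      rw [length_tup]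
    have h2 := Nat.pow_le_pow_left hb k
    exact ⟨by omega, by omega⟩
  · intro x
    rw [mem_lang_iff]
    constructor
    · rintro ⟨M, hM, h⟩
      rw [hM, Option.getD_some]
      exact (setGame_valid hk M).1 h
    · intro h
      cases hx : unbits (ℕ × List (List ℕ)) x with
      | none =>
        rw [hx, Option.getD_none] at h
        exact absurd h.1 (by simp [validS])
      | some M =>
        rw [hx, Option.getD_some] at h
        exact ⟨M, rfl, (setGame_valid hk M).2 h⟩

end Pool.Agent.Y386.SG
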